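import Pool.Agent.Helper76.T6.AVI

/-!
# MP_2f9829_co, T6, module L_LIM0: the limit of the standard matching part of the gauge fixing function
-/

set_option autoImplicit false

open Finset MeasureTheory Filter Topology

namespace Pool.Agent.Helper20.T6

open Pool.Agent.Helper15.T4 (IsPM PM cov IsMat nsq po)
open Pool.Agent.Helper15.T6 Pool.Agent.Helper46.T6 Pool.Agent.Helper76.T6

/-! ### Vectors -/

theorem nsq_nn {ι : Type} [Fintype ι] (x : ι → ℝ) : 0 ≤ nsq x :=
  Finset.sum_nonneg fun _ _ => sq_nonneg _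

theorem cont_nsq {ι : Type} [Fintype ι] : Continuous (fun x : ι → ℝ => nsq x) := by
  unfold nsq
  exact continuous_finsetSum _ fun i _ => (continuous_apply i).pow 2

theorem nsq_add_le {ι : Type} [Fintype ι] (x y z : ι → ℝ) (h : ∀ a, x a = y a + z a) :
    nsq x ≤ 2 * nsq y + 2 * nsq z := by
  unfold nsq
  rw [Finset.mul_sum, Finset.mul_sum, ← Finset.sum_add_distrib]
  refine Finset.sum_le_sum fun a _ => ?_
  rw [h a]
  nlinarith [sq_nonneg (y a - z a)]

theorem nsq_neg' {ι : Type} [Fintype ι] (x y : ι → ℝ) (h : ∀ a, x a = - y a) : nsq x = nsq y := by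
  unfold nsq
  exact Finset.sum_congr rfl fun a _ => by rw [h a]; ring

theorem nsq_add_eq {ι : Type} [Fintype ι] (x y : ι → ℝ) :
    nsq (fun a => x a + y a) = nsq x + 2 * ip x y + nsq y := by
  unfold nsq ip
  rw [Finset.mul_sum, ← Finset.sum_add_distrib, ← Finset.sum_add_distrib]
  exact Finset.sum_congr rfl fun a _ => by ring

theorem abs_ip_le' {ι : Type} [Fintype ι] (x y : ι → ℝ) :
    |ip x y| ≤ Real.sqrt (nsq x) * Real.sqrt (nsq y) := by
  unfold nsq ip
  rw [← Real.sqrt_mul (Finset.sum_nonneg fun i _ => sq_nonneg _)]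
  apply Real.abs_le_sqrt
  exact Finset.sum_mul_sq_le_sq_mul_sq _ _ _

theorem nsqm_add_le {d : ℕ} (A B C : Md d) (h : A = B + C) :
    nsqm A ≤ 2 * nsqm B + 2 * nsqm C := by
  subst h
  unfold nsqm
  rw [Finset.mul_sum, Finset.mul_sum, ← Finset.sum_add_distrib]
  refine Finset.sum_le_sum fun i _ => ?_
  rw [Finset.mul_sum, Finset.mul_sum, ← Finset.sum_add_distrib]
  refine Finset.sum_le_sum fun j _ => ?_
  rw [Matrix.add_apply]
  nlinarith [sq_nonneg (B i j - C i j)]

theorem nsqm_smul {d : ℕ} (r : ℝ) (A : Md d) : nsqm (r • A) = r ^ 2 * nsqm A := by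
  unfold nsqm
  rw [Finset.mul_sum]
  refine Finset.sum_congr rfl fun i _ => ?_
  rw [Finset.mul_sum]
  refine Finset.sum_congr rfl fun j _ => ?_
  rw [Matrix.smul_apply, smul_eq_mul]
  ring

/-! ### The average -/

section Average

variable {d K : ℕ}

theorem cont_coe : Continuous (fun O : Fin K → GO d => fun p => ((O p : GO d) : Md d)) :=
  continuous_pi fun p => OG.continuous_coe.comp (continuous_apply p)

theorem int_of_cont {G : (Fin K → Md d) → ℝ} (hG : Continuous G) :
    Integrable (fun O : Fin K → GO d => G (fun p => ((O p : GO d) : Md d)))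
      (Measure.pi fun _ => hO d) := by
  have hf : Continuous (fun O : Fin K → GO d => G (fun p => ((O p : GO d) : Md d))) :=
    hG.comp cont_coe
  exact hf.integrable_of_hasCompactSupport (HasCompactSupport.of_compactSpace _)

theorem AVd_sum {ι : Type} (s : Finset ι) (G : ι → (Fin K → Md d) → ℝ)
    (hG : ∀ i ∈ s, Continuous (G i)) :
    AVd d K (fun O => ∑ i ∈ s, G i O) = ∑ i ∈ s, AVd d K (G i) := by
  unfold AVd
  exact integral_finsetSum s fun i hi => int_of_cont (hG i hi)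

theorem AVd_sub (G H : (Fin K → Md d) → ℝ) (hG : Continuous G) (hH : Continuous H) :
    AVd d K (fun O => G O - H O) = AVd d K G - AVd d K H := by
  unfold AVd
  exact integral_sub (int_of_cont hG) (int_of_cont hH)

theorem AVd_add (G H : (Fin K → Md d) → ℝ) (hG : Continuous G) (hH : Continuous H) :
    AVd d K (fun O => G O + H O) = AVd d K G + AVd d K H := by
  unfold AVd
  exact integral_add (int_of_cont hG) (int_of_cont hH)

theorem AVd_mul (r : ℝ) (G : (Fin K → Md d) → ℝ) :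
    AVd d K (fun O => r * G O) = r * AVd d K G := by
  unfold AVd
  exact integral_const_mul r _

theorem AVd_const (r : ℝ) : AVd d K (fun _ => r) = r := by
  unfold AVd
  simp

theorem AVd_congr {G H : (Fin K → Md d) → ℝ} (h : ∀ O, (∀ p, OD (O p)) → G O = H O) :
    AVd d K G = AVd d K H := by
  unfold AVd
  refine integral_congr_ae (Eventually.of_forall fun O => ?_)
  exact h _ fun p => OG.right (O p)

theorem AVd_abs_le {G H : (Fin K → Md d) → ℝ} (hH : Continuous H)
    (h : ∀ O, (∀ p, OD (O p)) → |G O| ≤ H O) : |AVd d K G| ≤ AVd d K H := by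
  unfold AVd
  rw [← Real.norm_eq_abs]
  refine norm_integral_le_of_norm_le (int_of_cont hH) (Eventually.of_forall fun O => ?_)
  rw [Real.norm_eq_abs]
  exact h _ fun p => OG.right (O p)

theorem AVd_exp (a : ℝ) :
    AVd d K (fun O => Real.exp (-a * ∑ p, nsqm (O p - 1))) =
      (∫ O : GO d, Real.exp (-a * nsqm ((O : Md d) - 1)) ∂(hO d)) ^ K := by
  unfold AVd
  have h := integral_fintype_prod_eq_pow (𝕜 := ℝ) (ι := Fin K) (μ := hO d)
    (fun O : GO d => Real.exp (-a * nsqm ((O : Md d) - 1)))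
  rw [Fintype.card_fin] at h
  rw [← h]
  refine integral_congr_ae (Eventually.of_forall fun O => ?_)
  dsimp only
  rw [← Real.exp_sum, Finset.mul_sum]

end Average

/-! ### The cut-off -/

/-- cut-off function -/
noncomputable def chi (ρ t : ℝ) : ℝ := max 0 (min 1 (2 - 2 * t / ρ))

theorem cont_chi (ρ : ℝ) : Continuous (chi ρ) := by
  unfold chi
  fun_prop

theorem chi_nn (ρ t : ℝ) : 0 ≤ chi ρ t := le_max_left _ _

theorem chi_le (ρ t : ℝ) : chi ρ t ≤ 1 := max_le zero_le_one (min_le_left _ _)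

theorem chi_one {ρ t : ℝ} (hρ : 0 < ρ) (h : t ≤ ρ / 2) : chi ρ t = 1 := by
  unfold chi
  have h1 : 2 * t / ρ ≤ 1 := by
    rw [div_le_one hρ]
    linarith
  rw [min_eq_left (by linarith)]
  exact max_eq_right zero_le_one

theorem chi_zero {ρ t : ℝ} (hρ : 0 < ρ) (h : ρ ≤ t) : chi ρ t = 0 := by
  unfold chi
  have h1 : 2 ≤ 2 * t / ρ := by
    rw [le_div_iff₀ hρ]
    linarith
  refine max_eq_left ((min_le_right _ _).trans ?_)
  linarith

/-- product of the cut-offs around the signs `c` -/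
noncomputable def phi {d K : ℕ} (ρ : ℝ) (c : Fin K → ℤˣ) (O : Fin K → Md d) : ℝ :=
  ∏ p, chi ρ (nsqm (O p - ((c p : ℤ) : ℝ) • (1 : Md d)))

section Phi

variable {d K : ℕ} {ρ : ℝ} {c : Fin K → ℤˣ} {O : Fin K → Md d}

theorem cont_phi (ρ : ℝ) (c : Fin K → ℤˣ) : Continuous (phi ρ c : (Fin K → Md d) → ℝ) := by
  unfold phi
  refine continuous_finsetProd _ fun p _ => (cont_chi ρ).comp ?_
  exact continuous_fro.comp ((continuous_apply p).sub continuous_const)

theorem phi_nn : 0 ≤ phi ρ c O := Finset.prod_nonneg fun _ _ => chi_nn _ _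

theorem phi_le : phi ρ c O ≤ 1 := Finset.prod_le_one (fun _ _ => chi_nn _ _) fun _ _ => chi_le _ _

theorem phi_one (hρ : 0 < ρ) (h : ∀ p, nsqm (O p - ((c p : ℤ) : ℝ) • (1 : Md d)) ≤ ρ / 2) :
    phi ρ c O = 1 := Finset.prod_eq_one fun p _ => chi_one hρ (h p)

theorem phi_zero (hρ : 0 < ρ) {p : Fin K} (h : ρ ≤ nsqm (O p - ((c p : ℤ) : ℝ) • (1 : Md d))) :
    phi ρ c O = 0 := Finset.prod_eq_zero (Finset.mem_univ p) (chi_zero hρ h)

theorem sep (hd : 2 ≤ d) (hρ1 : ρ ≤ 1) {c' : Fin K → ℤˣ} (hc : c' ≠ c)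
    (h : ∀ p, nsqm (O p - ((c p : ℤ) : ℝ) • (1 : Md d)) ≤ ρ / 2) :
    ∃ p, ρ ≤ nsqm (O p - ((c' p : ℤ) : ℝ) • (1 : Md d)) := by
  obtain ⟨p, hp⟩ := Function.ne_iff.1 hc
  refine ⟨p, ?_⟩
  have e : (c' p) = - (c p) := by
    rcases Int.units_eq_one_or (c' p) with h1 | h1 <;>
    rcases Int.units_eq_one_or (c p) with h2 | h2
    · exact absurd (h1.trans h2.symm) hp
    · rw [h1, h2, neg_neg]
    · rw [h1, h2]
    · exact absurd (h1.trans h2.symm) hp
  have e2 : (((c' p : ℤˣ) : ℤ) : ℝ) = - (((c p : ℤˣ) : ℤ) : ℝ) := by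
    rw [e]
    push_cast
    rfl
  have e3 : (((c p : ℤˣ) : ℤ) : ℝ) ^ 2 = 1 := by
    rcases Int.units_eq_one_or (c p) with h2 | h2 <;> rw [h2] <;> norm_num
  have h1 := nsqm_add_le ((2 * (((c p : ℤˣ) : ℤ) : ℝ)) • (1 : Md d))
    (O p - (((c' p : ℤˣ) : ℤ) : ℝ) • (1 : Md d))
    (-(O p - (((c p : ℤˣ) : ℤ) : ℝ) • (1 : Md d))) (by
      rw [e2]
      module)
  have h2 : nsqm (-(O p - (((c p : ℤˣ) : ℤ) : ℝ) • (1 : Md d))) =
      nsqm (O p - (((c p : ℤˣ) : ℤ) : ℝ) • (1 : Md d)) := by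
    have := nsqm_smul (-1) (O p - (((c p : ℤˣ) : ℤ) : ℝ) • (1 : Md d))
    rw [neg_one_smul] at this
    rw [this]
    ring
  rw [h2, nsqm_smul, fro_one, mul_pow, e3] at h1
  have h3 := h p
  have h4 : (2 : ℝ) ≤ d := by exact_mod_cast hd
  linarith

end Phi

/-! ### The integrand -/

/-- the exponential -/
noncomputable def FN {d K : ℕ} (N : ℕ) (x : (Fin K × Fin 2 → Fin d) → ℝ) (s : ℤˣ)
    (O : Fin K → Md d) : ℝ :=
  Real.exp (-(N : ℝ) * nsq (fun a => x a - ((s : ℤ) : ℝ) * pt (Equiv.refl _) O a))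

section FN

variable {d K : ℕ}

theorem cont_pt : Continuous (fun O : Fin K → Md d =>
    (pt (Equiv.refl (Fin K × Fin 2)) O : (Fin K × Fin 2 → Fin d) → ℝ)) := by
  refine continuous_pi fun a => ?_
  unfold pt
  refine continuous_finsetProd _ fun p _ => ?_
  refine Continuous.div_const ?_ _
  have h1 : Continuous (fun O : Fin K → Md d => O p) := continuous_apply p
  exact h1.matrix_elem _ _

theorem cont_FN (N : ℕ) (x : (Fin K × Fin 2 → Fin d) → ℝ) (s : ℤˣ) : Continuous (FN N x s) := by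
  unfold FN
  refine Real.continuous_exp.comp (continuous_const.mul (cont_nsq.comp ?_))
  exact continuous_pi fun a => continuous_const.sub (continuous_const.mul
    ((continuous_apply a).comp cont_pt))

theorem FN_pos (N : ℕ) (x : (Fin K × Fin 2 → Fin d) → ℝ) (s : ℤˣ) (O : Fin K → Md d) :
    0 < FN N x s O := Real.exp_pos _

theorem pt_smul (c : Fin K → ℤˣ) (O : Fin K → Md d) (a : Fin K × Fin 2 → Fin d) :
    pt (Equiv.refl _) (fun p => (((c p : ℤˣ) : ℤ) : ℝ) • O p) a =
      (((∏ p, c p : ℤˣ) : ℤ) : ℝ) * pt (Equiv.refl _) O a := by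
  unfold pt
  rw [Units.coe_prod, Int.cast_prod, ← Finset.prod_mul_distrib]
  refine Finset.prod_congr rfl fun p _ => ?_
  show (((c p : ℤˣ) : ℤ) : ℝ) * O p _ _ / _ = _
  rw [mul_div_assoc]

theorem AV_local {ρ : ℝ} (N : ℕ) (x : (Fin K × Fin 2 → Fin d) → ℝ)
    (c : Fin K → ℤˣ) :
    AVd d K (fun O => phi ρ c O * FN N x (∏ p, c p) O) =
      AVd d K (fun O => phi ρ (fun _ => 1) O * FN N x 1 O) := by
  have h := (st_AVI d K (fun O => phi ρ (fun _ => 1) O * FN N x 1 O)
    ((cont_phi ρ _).mul (cont_FN N x 1))).1 (fun p => (((c p : ℤˣ) : ℤ) : ℝ) • (1 : Md d))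
      (fun _ => 1) (fun p => ?_) (fun p => by unfold OD; simp)
  · rw [← h]
    refine AVd_congr fun O _ => ?_
    have e0 : (fun p => (((c p : ℤˣ) : ℤ) : ℝ) • (1 : Md d) * O p * 1) =
        fun p => (((c p : ℤˣ) : ℤ) : ℝ) • O p := by
      funext p
      rw [mul_one, Matrix.smul_mul, one_mul]
    rw [e0]
    congr 1
    · unfold phi
      refine Finset.prod_congr rfl fun p _ => ?_
      congr 1
      have e3 : (((c p : ℤˣ) : ℤ) : ℝ) * (((c p : ℤˣ) : ℤ) : ℝ) = 1 := by
        rcases Int.units_eq_one_or (c p) with h2 | h2 <;> rw [h2] <;> norm_num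
      have e1 : (((c p : ℤˣ) : ℤ) : ℝ) • O p - (((1 : ℤˣ) : ℤ) : ℝ) • (1 : Md d) =
          (((c p : ℤˣ) : ℤ) : ℝ) • (O p - (((c p : ℤˣ) : ℤ) : ℝ) • (1 : Md d)) := by
        rw [smul_sub, smul_smul, e3]
        simp
      rw [e1, nsqm_smul, pow_two, e3, one_mul]
    · unfold FN
      congr 3
      funext a
      rw [pt_smul]
      simp
  · unfold OD
    have e3 : (((c p : ℤˣ) : ℤ) : ℝ) * (((c p : ℤˣ) : ℤ) : ℝ) = 1 := by
      rcases Int.units_eq_one_or (c p) with h2 | h2 <;> rw [h2] <;> norm_num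
    rw [Matrix.transpose_smul, Matrix.transpose_one, Matrix.smul_mul, one_mul, smul_smul, e3,
      one_smul]

end FN

/-! ### The part far from the signs -/

open Classical in
/-- the defect of the partition -/
noncomputable def dfc {d K : ℕ} (ρ : ℝ) (s : ℤˣ) (O : Fin K → Md d) : ℝ :=
  1 - ∑ c ∈ univ.filter (fun c : Fin K → ℤˣ => ∏ p, c p = s), phi ρ c O

section Far

variable {d K : ℕ}

open Classical in
theorem cont_dfc (ρ : ℝ) (s : ℤˣ) : Continuous (dfc ρ s : (Fin K → Md d) → ℝ) := by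
  unfold dfc
  exact continuous_const.sub (continuous_finsetSum _ fun c _ => cont_phi ρ c)

open Classical in
theorem dfc_abs (ρ : ℝ) (s : ℤˣ) (O : Fin K → Md d) : |dfc ρ s O| ≤ 1 + 2 ^ K := by
  unfold dfc
  have h1 : 0 ≤ ∑ c ∈ univ.filter (fun c : Fin K → ℤˣ => ∏ p, c p = s), phi ρ c O :=
    Finset.sum_nonneg fun _ _ => phi_nn
  have h2 : ∑ c ∈ univ.filter (fun c : Fin K → ℤˣ => ∏ p, c p = s), phi ρ c O ≤ 2 ^ K := by
    calc _ ≤ ∑ c : Fin K → ℤˣ, phi ρ c O :=
          Finset.sum_le_sum_of_subset_of_nonneg (Finset.filter_subset _ _)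
            fun _ _ _ => phi_nn
      _ ≤ ∑ _c : Fin K → ℤˣ, (1 : ℝ) := Finset.sum_le_sum fun _ _ => phi_le
      _ = 2 ^ K := by simp
  rw [abs_le]
  constructor <;> linarith

open Classical in
theorem far_bound (hd : 2 ≤ d) {ρ δ : ℝ} (hρ : 0 < ρ) (hρ1 : ρ ≤ 1)
    (hcomp : ∀ (s : ℤˣ) (O : Fin K → Md d), (∀ p, OD (O p)) →
      (∀ c : Fin K → ℤˣ, ∏ p, c p = s → ∃ p, ρ / 2 ≤ nsqm (O p - ((c p : ℤ) : ℝ) • 1)) →
      δ ≤ nsq (fun a => u0 d K a - ((s : ℤ) : ℝ) * pt (Equiv.refl _) O a))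
    (N : ℕ) (x : (Fin K × Fin 2 → Fin d) → ℝ) (hx : nsq (fun a => x a - u0 d K a) ≤ δ / 4)
    (s : ℤˣ) (O : Fin K → Md d) (hO : ∀ p, OD (O p)) :
    |dfc ρ s O * FN N x s O| ≤ (1 + 2 ^ K) * Real.exp (-(N : ℝ) * (δ / 4)) := by
  rw [abs_mul, abs_of_pos (FN_pos N x s O)]
  by_cases h : ∀ c : Fin K → ℤˣ, ∏ p, c p = s → ∃ p, ρ / 2 ≤ nsqm (O p - ((c p : ℤ) : ℝ) • 1)
  · have h1 := hcomp s O hO h
    have h2 := nsq_add_le (fun a => u0 d K a - ((s : ℤ) : ℝ) * pt (Equiv.refl _) O a)
      (fun a => u0 d K a - x a) (fun a => x a - ((s : ℤ) : ℝ) * pt (Equiv.refl _) O a)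
      (fun a => by ring)
    have h3 : nsq (fun a => u0 d K a - x a) = nsq (fun a => x a - u0 d K a) :=
      nsq_neg' _ _ fun a => by ring
    refine mul_le_mul (dfc_abs ρ s O) ?_ (FN_pos N x s O).le (by positivity)
    unfold FN
    refine Real.exp_le_exp.2 ?_
    have h4 : δ / 4 ≤ nsq (fun a => x a - ((s : ℤ) : ℝ) * pt (Equiv.refl _) O a) := by
      rw [h3] at h2
      linarith
    have h5 : (0 : ℝ) ≤ N := Nat.cast_nonneg _
    nlinarith
  · push Not at h
    obtain ⟨c0, hc0, hp⟩ := h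
    have h1 : dfc ρ s O = 0 := by
      unfold dfc
      rw [Finset.sum_eq_single c0]
      · rw [phi_one hρ fun p => (hp p).le, sub_self]
      · intro c _ hc
        obtain ⟨p, hp'⟩ := sep hd hρ1 hc fun p => (hp p).le
        exact phi_zero hρ hp'
      · intro hh
        exact absurd (Finset.mem_filter.2 ⟨Finset.mem_univ _, hc0⟩ :
          c0 ∈ univ.filter (fun c : Fin K → ℤˣ => ∏ p, c p = s)) hh
    rw [h1, abs_zero, zero_mul]
    positivity

open Classical in
theorem split_sum (ρ : ℝ) (N : ℕ) (x : (Fin K × Fin 2 → Fin d) → ℝ) :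
    ∑ s : ℤˣ, AVd d K (FN N x s) =
      2 ^ K * AVd d K (fun O => phi ρ (fun _ => 1) O * FN N x 1 O) +
        ∑ s : ℤˣ, AVd d K (fun O => dfc ρ s O * FN N x s O) := by
  have h1 : ∀ s : ℤˣ, AVd d K (FN N x s) =
      ∑ c ∈ univ.filter (fun c : Fin K → ℤˣ => ∏ p, c p = s),
        AVd d K (fun O => phi ρ c O * FN N x (∏ p, c p) O) +
      AVd d K (fun O => dfc ρ s O * FN N x s O) := by
    intro s
    have h0 := AVd_sum (univ.filter (fun c : Fin K → ℤˣ => ∏ p, c p = s))
      (fun c O => phi ρ c O * FN N x (∏ p, c p) O)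
      (fun c _ => (cont_phi ρ c).mul (cont_FN N x _))
    rw [← h0, ← AVd_add]
    · refine AVd_congr fun O _ => ?_
      have h2 : ∑ c ∈ univ.filter (fun c : Fin K → ℤˣ => ∏ p, c p = s),
          phi ρ c O * FN N x (∏ p, c p) O =
          (∑ c ∈ univ.filter (fun c : Fin K → ℤˣ => ∏ p, c p = s), phi ρ c O) * FN N x s O := by
        rw [Finset.sum_mul]
        refine Finset.sum_congr rfl fun c hc => ?_
        rw [(Finset.mem_filter.1 hc).2]
      rw [h2]
      unfold dfc
      ring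
    · exact continuous_finsetSum _ fun c _ => (cont_phi ρ c).mul (cont_FN N x _)
    · exact (cont_dfc ρ s).mul (cont_FN N x s)
  rw [Finset.sum_congr rfl fun s _ => h1 s, Finset.sum_add_distrib, Finset.sum_fiberwise]
  congr 1
  rw [Finset.sum_congr rfl fun c _ => AV_local (ρ := ρ) N x c]
  rw [Finset.sum_const, Finset.card_univ, nsmul_eq_mul]
  congr 1
  simp

end Far

/-! ### The part near the unit -/

theorem exp_sub_one_le (t : ℝ) : |Real.exp t - 1| ≤ |t| * Real.exp |t| := by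
  rcases le_total 0 t with h | h
  · rw [abs_of_nonneg h, abs_of_nonneg (by linarith [Real.add_one_le_exp t])]
    have h1 := Real.add_one_le_exp (-t)
    have h2 : Real.exp (-t) * Real.exp t = 1 := by rw [← Real.exp_add]; simp
    have h3 := Real.exp_pos t
    nlinarith
  · have h1 := Real.add_one_le_exp t
    have h2 : Real.exp t ≤ 1 := Real.exp_le_one_iff.2 h
    rw [abs_of_nonpos h, abs_of_nonpos (by linarith)]
    have h3 : 1 ≤ Real.exp (-t) := Real.one_le_exp (by linarith)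
    nlinarith

theorem exp_sub_le {a b r : ℝ} (h : |a - b| ≤ r) :
    |Real.exp a - Real.exp b| ≤ r * Real.exp (b + r) := by
  have h1 : Real.exp a - Real.exp b = Real.exp b * (Real.exp (a - b) - 1) := by
    rw [mul_sub, ← Real.exp_add]
    ring_nf
  rw [h1, abs_mul, abs_of_pos (Real.exp_pos b), Real.exp_add]
  have h2 := exp_sub_one_le (a - b)
  have h3 : |a - b| * Real.exp |a - b| ≤ r * Real.exp r :=
    mul_le_mul h (Real.exp_le_exp.2 h) (Real.exp_pos _).le ((abs_nonneg _).trans h)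
  calc Real.exp b * |Real.exp (a - b) - 1| ≤ Real.exp b * (r * Real.exp r) := by
        gcongr
        exact h2.trans h3
    _ = r * (Real.exp b * Real.exp r) := by ring

theorem sq_le_exp {d : ℝ} (hd : 1 ≤ d) {Y : ℝ} (hY : 0 ≤ Y) :
    (1 + Y) ^ 2 ≤ 64 * d ^ 2 * Real.exp (Y / (4 * d)) := by
  have h1 := Real.add_one_le_exp (Y / (8 * d))
  have h2 : (1 + Y) ≤ 8 * d * Real.exp (Y / (8 * d)) := by
    have h3 : 8 * d * (Y / (8 * d)) = Y := by field_simp
    nlinarith
  have h4 : Real.exp (Y / (4 * d)) = Real.exp (Y / (8 * d)) ^ 2 := by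
    rw [← Real.exp_nat_mul]
    congr 1
    push_cast
    field_simp
    ring
  rw [h4]
  calc (1 + Y) ^ 2 ≤ (8 * d * Real.exp (Y / (8 * d))) ^ 2 := by gcongr
    _ = _ := by ring

/-- the elementary part of the local estimate -/
theorem near_real {d : ℝ} (hd : 1 ≤ d) {c1 q N X E T n A B C1 C : ℝ} (hC : 0 ≤ C) (hC1 : 0 < C1)
    (hc1 : c1 = C1 * Real.sqrt C) (hq : 8 * d * c1 ≤ q) (hq1 : 1 ≤ q) (hN : N = q ^ 2)
    (hX : 0 ≤ X) (hXs : X ≤ 1 / (8 * d)) (hn : 0 ≤ n) (hT : T = n + X / d)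
    (hA : A ≤ Real.sqrt C / q) (hB : B ≤ Real.sqrt C / q ^ 2)
    (hE : |E - T| ≤ C1 * (A * X + B * Real.sqrt X) + X ^ 2) :
    |Real.exp (-N * E) - Real.exp (-N * T)| ≤
      ((2 * c1 + 1) * (64 * d ^ 2) * Real.exp 1) / q * Real.exp (-(N / (4 * d)) * X) := by
  have hd0 : 0 < d := by linarith
  have hq0 : 0 < q := by linarith
  have hN0 : 0 < N := by rw [hN]; positivity
  have hc10 : 0 ≤ c1 := by rw [hc1]; positivity
  set Y := N * X with hY
  have hY0 : 0 ≤ Y := by positivity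
  have hsY : Real.sqrt Y = q * Real.sqrt X := by
    rw [hY, hN, Real.sqrt_mul (by positivity), Real.sqrt_sq hq0.le]
  have hsY1 : Real.sqrt Y ≤ 1 + Y := by
    have h1 := Real.sq_sqrt hY0
    nlinarith [Real.sqrt_nonneg Y, sq_nonneg (Real.sqrt Y - 1)]
  -- the error
  set r := c1 * (2 * Y + 1) / q + Y * X with hr
  have h1 : N * |E - T| ≤ r := by
    have h2 : N * (C1 * (A * X + B * Real.sqrt X) + X ^ 2) ≤ r := by
      have h3 : N * (C1 * (A * X)) ≤ c1 * Y / q := by
        calc N * (C1 * (A * X)) ≤ N * (C1 * (Real.sqrt C / q * X)) := by gcongr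
          _ = c1 * Y / q := by rw [hc1, hY]; ring
      have h4 : N * (C1 * (B * Real.sqrt X)) ≤ c1 * (1 + Y) / q := by
        calc N * (C1 * (B * Real.sqrt X)) ≤ N * (C1 * (Real.sqrt C / q ^ 2 * Real.sqrt X)) := by
              gcongr
          _ = c1 * (q * Real.sqrt X) / q := by
              rw [hc1, hN]
              field_simp
          _ ≤ c1 * (1 + Y) / q := by
              rw [← hsY]
              gcongr
      have h5 : N * X ^ 2 = Y * X := by rw [hY]; ring
      have h6 : c1 * Y / q + c1 * (1 + Y) / q = c1 * (2 * Y + 1) / q := by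
        rw [← add_div]
        congr 1
        ring
      calc N * (C1 * (A * X + B * Real.sqrt X) + X ^ 2) =
          N * (C1 * (A * X)) + N * (C1 * (B * Real.sqrt X)) + N * X ^ 2 := by ring
        _ ≤ c1 * Y / q + c1 * (1 + Y) / q + Y * X := by
            rw [h5]
            linarith
        _ = r := by rw [h6, hr]
    exact (mul_le_mul_of_nonneg_left hE hN0.le).trans h2
  have h2 : |(-N * E) - (-N * T)| ≤ r := by
    have : (-N * E) - (-N * T) = -(N * (E - T)) := by ring
    rw [this, abs_neg, abs_mul, abs_of_pos hN0]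
    exact h1
  have h3 := exp_sub_le h2
  -- bound for r, first form
  have h4 : r ≤ Y / (2 * d) + 1 := by
    have h5 : c1 * (2 * Y + 1) / q ≤ (2 * Y + 1) / (8 * d) := by
      rw [div_le_div_iff₀ hq0 (by positivity)]
      have : c1 * (8 * d) ≤ q := by linarith
      nlinarith
    have h6 : Y * X ≤ Y / (8 * d) := by
      calc Y * X ≤ Y * (1 / (8 * d)) := by gcongr
        _ = Y / (8 * d) := by ring
    have h7 : (2 * Y + 1) / (8 * d) + Y / (8 * d) ≤ Y / (2 * d) + 1 := by
      have e : Y / (2 * d) = 4 * Y / (8 * d) := by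
        field_simp
        ring
      rw [e, ← add_div]
      have h8 : (2 * Y + 1 + Y) / (8 * d) ≤ (4 * Y + 8 * d) / (8 * d) :=
        div_le_div_of_nonneg_right (by linarith) (by positivity)
      refine h8.trans (le_of_eq ?_)
      field_simp
    rw [hr]
    linarith
  -- second form
  have h5 : r ≤ (2 * c1 + 1) * (1 + Y) ^ 2 / q := by
    have h6 : Y * X ≤ Y ^ 2 / q := by
      rw [le_div_iff₀ hq0, pow_two]
      have : X * q ≤ Y := by
        rw [hY, hN]
        nlinarith [mul_nonneg hX hq0.le, mul_nonneg (mul_nonneg hX hq0.le) (sub_nonneg.2 hq1)]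
      calc Y * X * q = Y * (X * q) := by ring
        _ ≤ Y * Y := by gcongr
    have h7 : c1 * (2 * Y + 1) / q + Y ^ 2 / q ≤ (2 * c1 + 1) * (1 + Y) ^ 2 / q := by
      rw [← add_div]
      gcongr
      nlinarith [mul_nonneg hc10 hY0, mul_nonneg hc10 (sq_nonneg Y), sq_nonneg Y]
    rw [hr]
    linarith
  have h6 : Real.exp (-N * T + r) ≤ Real.exp 1 * Real.exp (-(Y / (2 * d))) := by
    rw [← Real.exp_add]
    refine Real.exp_le_exp.2 ?_
    have e : -N * T = -(N * n) - Y / d := by rw [hT, hY]; ring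
    rw [e]
    have e2 : Y / d = Y / (2 * d) + Y / (2 * d) := by field_simp; ring
    have : 0 ≤ N * n := by positivity
    linarith
  have h7 := sq_le_exp hd hY0
  have hr0 : 0 ≤ r := (abs_nonneg _).trans h2
  calc |Real.exp (-N * E) - Real.exp (-N * T)| ≤ r * Real.exp (-N * T + r) := h3
    _ ≤ ((2 * c1 + 1) * (1 + Y) ^ 2 / q) * (Real.exp 1 * Real.exp (-(Y / (2 * d)))) := by
        exact mul_le_mul h5 h6 (Real.exp_pos _).le (by positivity)
    _ ≤ ((2 * c1 + 1) * (64 * d ^ 2 * Real.exp (Y / (4 * d))) / q) *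
          (Real.exp 1 * Real.exp (-(Y / (2 * d)))) := by gcongr
    _ = ((2 * c1 + 1) * (64 * d ^ 2) * Real.exp 1) / q *
          (Real.exp (Y / (4 * d)) * Real.exp (-(Y / (2 * d)))) := by ring
    _ = _ := by
        rw [← Real.exp_add]
        congr 2
        rw [hY]
        field_simp
        ring

section Near

variable {d K : ℕ}

theorem phi_unit {ρ : ℝ} (O : Fin K → Md d) :
    phi ρ (fun _ => 1) O = ∏ p, chi ρ (nsqm (O p - 1)) := by
  unfold phi
  refine Finset.prod_congr rfl fun p _ => ?_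
  simp

theorem near_bound (hd : 1 ≤ d) {C1 C : ℝ} (hC1 : 0 < C1) (hC : 0 ≤ C)
    (hnear : ∀ (g e : (Fin K × Fin 2 → Fin d) → ℝ) (O : Fin K → Md d), tqd d K g = 0 →
      (∀ p, OD (O p)) → |nsq (fun a => u0 d K a + g a + e a - pt (Equiv.refl _) O a) -
      (nsq (fun a => g a + e a) + nsq (fun a => pt (Equiv.refl _) O a - u0 d K a))| ≤
      C1 * (Real.sqrt (nsq g) * (∑ p, nsqm (O p - 1)) +
        Real.sqrt (nsq e) * Real.sqrt (∑ p, nsqm (O p - 1))))
    (hdist : ∀ (O : Fin K → Md d), (∀ p, OD (O p)) →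
      |nsq (fun a => pt (Equiv.refl _) O a - u0 d K a) - (∑ p, nsqm (O p - 1)) / d| ≤
      (∑ p, nsqm (O p - 1)) ^ 2) {ρ : ℝ} (hρ : 0 < ρ) (hρK : K * ρ ≤ 1 / (8 * d))
    {N : ℕ} (hN : 1 ≤ N) (hN2 : 8 * d * (C1 * Real.sqrt C) ≤ Real.sqrt N)
    (g e : (Fin K × Fin 2 → Fin d) → ℝ) (hg : tqd d K g = 0) (hg2 : nsq g ≤ C / N)
    (he : nsq e ≤ C / (N : ℝ) ^ 2) (O : Fin K → Md d) (hO : ∀ p, OD (O p)) :
    |phi ρ (fun _ => 1) O * FN N (fun a => u0 d K a + g a + e a) 1 O -
      Real.exp (-(N : ℝ) * nsq (fun a => g a + e a)) *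
        Real.exp (-((N : ℝ) / d) * ∑ p, nsqm (O p - 1))| ≤
      ((2 * (C1 * Real.sqrt C) + 1) * (64 * (d : ℝ) ^ 2) * Real.exp 1) / Real.sqrt N *
        Real.exp (-((N : ℝ) / (4 * d)) * ∑ p, nsqm (O p - 1)) +
      Real.exp (-(N : ℝ) * (ρ / (2 * d))) := by
  set X := ∑ p, nsqm (O p - 1) with hX
  have hX0 : 0 ≤ X := Finset.sum_nonneg fun p _ => fro_nonneg _
  have hd1 : (1 : ℝ) ≤ d := by exact_mod_cast hd
  have hN1 : (1 : ℝ) ≤ N := by exact_mod_cast hN
  have hq1 : 1 ≤ Real.sqrt N := Real.one_le_sqrt.2 hN1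
  have hqN : (N : ℝ) = Real.sqrt N ^ 2 := (Real.sq_sqrt (by linarith)).symm
  set φ := phi ρ (fun _ => 1) O with hφ
  have hφ0 : 0 ≤ φ := phi_nn
  have hφ1 : φ ≤ 1 := phi_le
  have hFN : FN N (fun a => u0 d K a + g a + e a) 1 O = Real.exp (-(N : ℝ) *
      nsq (fun a => u0 d K a + g a + e a - pt (Equiv.refl _) O a)) := by
    unfold FN
    congr 3
    funext a
    simp
  set E := nsq (fun a => u0 d K a + g a + e a - pt (Equiv.refl _) O a) with hE
  set n := nsq (fun a => g a + e a) with hn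
  have hn0 : 0 ≤ n := nsq_nn _
  have hT : Real.exp (-(N : ℝ) * n) * Real.exp (-((N : ℝ) / d) * X) =
      Real.exp (-(N : ℝ) * (n + X / d)) := by
    rw [← Real.exp_add]
    congr 1
    ring
  rw [hFN, hT]
  have hb1 : Real.exp (-(N : ℝ) * (n + X / d)) ≤ Real.exp (-(N : ℝ) * (X / d)) := by
    refine Real.exp_le_exp.2 ?_
    nlinarith
  -- the two pieces
  have h1 : φ * |Real.exp (-(N : ℝ) * E) - Real.exp (-(N : ℝ) * (n + X / d))| ≤
      ((2 * (C1 * Real.sqrt C) + 1) * (64 * (d : ℝ) ^ 2) * Real.exp 1) / Real.sqrt N *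
        Real.exp (-((N : ℝ) / (4 * d)) * X) := by
    by_cases hz : φ = 0
    · rw [hz, zero_mul]
      positivity
    have hXs : X ≤ 1 / (8 * d) := by
      refine le_trans ?_ hρK
      have h2 : ∀ p ∈ (univ : Finset (Fin K)), nsqm (O p - 1) ≤ ρ := by
        intro p _
        by_contra hcon
        apply hz
        rw [hφ, phi_unit]
        exact Finset.prod_eq_zero (Finset.mem_univ p) (chi_zero hρ (not_le.1 hcon).le)
      calc X ≤ ∑ _p : Fin K, ρ := Finset.sum_le_sum h2
        _ = K * ρ := by simp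
    have h2 := near_real hd1 (c1 := C1 * Real.sqrt C) (q := Real.sqrt N) (N := N) (X := X)
      (E := E) (T := n + X / d) (n := n) (A := Real.sqrt (nsq g)) (B := Real.sqrt (nsq e))
      hC hC1 rfl hN2 hq1 hqN hX0 hXs hn0 rfl (by
        rw [← Real.sqrt_div hC]
        exact Real.sqrt_le_sqrt hg2) (by
        have : Real.sqrt C / Real.sqrt N ^ 2 = Real.sqrt (C / (N : ℝ) ^ 2) := by
          rw [Real.sqrt_div hC, Real.sqrt_sq (by linarith), ← hqN]
        rw [this]
        exact Real.sqrt_le_sqrt he) (by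
        have h3 := hnear g e O hg hO
        have h4 := hdist O hO
        have h5 : E - (n + X / d) = (E - (n + nsq (fun a => pt (Equiv.refl _) O a - u0 d K a))) +
            (nsq (fun a => pt (Equiv.refl _) O a - u0 d K a) - X / d) := by ring
        rw [h5]
        exact (abs_add_le _ _).trans (add_le_add h3 h4))
    calc φ * |Real.exp (-(N : ℝ) * E) - Real.exp (-(N : ℝ) * (n + X / d))| ≤
        1 * |Real.exp (-(N : ℝ) * E) - Real.exp (-(N : ℝ) * (n + X / d))| := by gcongr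
      _ ≤ _ := by
          rw [one_mul]
          exact h2
  have h2 : (1 - φ) * Real.exp (-(N : ℝ) * (n + X / d)) ≤ Real.exp (-(N : ℝ) * (ρ / (2 * d))) := by
    by_cases hz : φ = 1
    · rw [hz, sub_self, zero_mul]
      exact (Real.exp_pos _).le
    have hXl : ρ / 2 ≤ X := by
      by_contra hcon
      apply hz
      rw [hφ, phi_unit]
      refine Finset.prod_eq_one fun p _ => chi_one hρ ?_
      have : nsqm (O p - 1) ≤ X :=
        Finset.single_le_sum (f := fun p => nsqm (O p - 1)) (fun p _ => fro_nonneg _)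
          (Finset.mem_univ p)
      linarith
    calc (1 - φ) * Real.exp (-(N : ℝ) * (n + X / d)) ≤
        1 * Real.exp (-(N : ℝ) * (X / d)) :=
          mul_le_mul (by linarith) hb1 (Real.exp_pos _).le zero_le_one
      _ ≤ _ := by
          rw [one_mul]
          refine Real.exp_le_exp.2 ?_
          have h3 : ρ / (2 * d) ≤ X / d := by
            rw [← div_div]
            gcongr
          nlinarith
  have h3 : φ * Real.exp (-(N : ℝ) * E) - Real.exp (-(N : ℝ) * (n + X / d)) =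
      φ * (Real.exp (-(N : ℝ) * E) - Real.exp (-(N : ℝ) * (n + X / d))) -
        (1 - φ) * Real.exp (-(N : ℝ) * (n + X / d)) := by ring
  rw [h3]
  refine (abs_sub _ _).trans ?_
  rw [abs_mul, abs_of_nonneg hφ0, abs_of_nonneg (a := (1 - φ) * _)
    (mul_nonneg (by linarith) (Real.exp_pos _).le)]
  exact add_le_add h1 h2

end Near

/-! ### The limit -/

theorem tendsto_small (d K : ℕ) (hd : 1 ≤ d) {κ : ℝ} (hκ : 0 < κ) :
    Tendsto (fun N : ℕ => Real.exp (-(N : ℝ) * κ) / psiN d N ^ K) atTop (𝓝 0) := by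
  obtain ⟨hpos, -, -, ⟨c, E, hc, hlow⟩, -⟩ := st_TIGHT d hd
  have h1 : Tendsto (fun N : ℕ => (1 / (c ^ K * κ ^ (E * K))) *
      ((κ * (N : ℝ)) ^ (E * K) * Real.exp (-(κ * (N : ℝ))))) atTop
      (𝓝 ((1 / (c ^ K * κ ^ (E * K))) * 0)) := by
    refine Tendsto.const_mul _ ?_
    have h2 : Tendsto (fun N : ℕ => κ * (N : ℝ)) atTop atTop :=
      (tendsto_natCast_atTop_atTop).const_mul_atTop hκ
    exact (Real.tendsto_pow_mul_exp_neg_atTop_nhds_zero (E * K)).comp h2
  rw [mul_zero] at h1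
  refine tendsto_of_tendsto_of_tendsto_of_le_of_le' tendsto_const_nhds h1 ?_ ?_
  · refine Eventually.of_forall fun N => ?_
    have := (hpos N).1
    positivity
  · filter_upwards [eventually_ge_atTop 1] with N hN
    have hN0 : (0 : ℝ) < N := by exact_mod_cast hN
    have h3 := hlow N hN
    have h4 : (c / (N : ℝ) ^ E) ^ K ≤ psiN d N ^ K := by gcongr
    have h5 : 0 < (c / (N : ℝ) ^ E) ^ K := by positivity
    calc Real.exp (-(N : ℝ) * κ) / psiN d N ^ K ≤
        Real.exp (-(N : ℝ) * κ) / (c / (N : ℝ) ^ E) ^ K := by gcongr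
      _ = _ := by
          rw [show -(N : ℝ) * κ = -(κ * N) by ring, div_pow, mul_pow, ← pow_mul]
          field_simp

theorem st_LIM0 (near : ST_NEAR) (distp : ST_DISTP) (comp : ST_COMP) : ST_LIM0 := by
  intro d hd K g e C G hg hg2 he hG
  have hd1 : 1 ≤ d := by omega
  have hdr : (1 : ℝ) ≤ d := by exact_mod_cast hd1
  obtain ⟨C1, hC1, hnear⟩ := near d hd1 K
  have hdist := fun O hO => (distp d hd1 K O hO).2.2
  have hC : 0 ≤ C := by
    have := (nsq_nn (g 1)).trans (hg2 1 le_rfl)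
    simpa using this
  set ρ : ℝ := 1 / (8 * d * (K + 1)) with hρ
  have hρ0 : 0 < ρ := by positivity
  have hρ1 : ρ ≤ 1 := by
    rw [hρ, div_le_one (by positivity)]
    have : (0 : ℝ) ≤ K := Nat.cast_nonneg _
    nlinarith
  have hρK : (K : ℝ) * ρ ≤ 1 / (8 * d) := by
    rw [hρ, mul_one_div, div_le_div_iff₀ (by positivity) (by positivity)]
    have : (0 : ℝ) ≤ K := Nat.cast_nonneg _
    nlinarith
  obtain ⟨δ, hδ, hcomp⟩ := (comp d hd K).2 (ρ / 2) (by positivity)
  obtain ⟨hpos, -, hker, -, -⟩ := st_TIGHT d hd1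
  obtain ⟨C5, hC5⟩ := hker (1 / (4 * d)) (by positivity)
  have hC50 : 0 ≤ C5 := by
    have h1 := hC5 1 le_rfl
    have h2 : 0 ≤ ∫ O : GO d, Real.exp (-(1 / (4 * (d : ℝ))) * ((1 : ℕ) : ℝ) *
        nsqm ((O : Md d) - 1)) ∂(hO d) := integral_nonneg fun _ => (Real.exp_pos _).le
    have h3 := (hpos 1).1
    by_contra hcon
    rw [not_le] at hcon
    nlinarith
  set M : ℝ := (2 * (C1 * Real.sqrt C) + 1) * (64 * (d : ℝ) ^ 2) * Real.exp 1 with hM
  have hM0 : 0 ≤ M := by positivity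
  set n : ℕ → ℝ := fun N => nsq (fun a => g N a + e N a) with hn
  -- the limit of the exponent
  have hnlim : Tendsto (fun N : ℕ => (N : ℝ) * n N) atTop (𝓝 G) := by
    have h0 : Tendsto (fun N : ℕ => (N : ℝ) * n N - (N : ℝ) * nsq (g N)) atTop (𝓝 0) := by
      have h1 : Tendsto (fun N : ℕ => 2 * C / Real.sqrt N + C / N) atTop (𝓝 0) := by
        have a1 : Tendsto (fun N : ℕ => 2 * C / Real.sqrt N) atTop (𝓝 0) :=
          tendsto_const_nhds.div_atTop (Real.tendsto_sqrt_atTop.comp tendsto_natCast_atTop_atTop)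
        have a2 : Tendsto (fun N : ℕ => C / (N : ℝ)) atTop (𝓝 0) :=
          tendsto_const_nhds.div_atTop tendsto_natCast_atTop_atTop
        simpa using a1.add a2
      refine squeeze_zero_norm' ?_ h1
      filter_upwards [eventually_ge_atTop 1] with N hN
      have hN0 : (0 : ℝ) < N := by exact_mod_cast hN
      have e1 : (N : ℝ) * n N - (N : ℝ) * nsq (g N) =
          (N : ℝ) * (2 * ip (g N) (e N)) + (N : ℝ) * nsq (e N) := by
        rw [hn]
        dsimp only
        rw [nsq_add_eq]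
        ring
      rw [e1, Real.norm_eq_abs]
      refine (abs_add_le _ _).trans (add_le_add ?_ ?_)
      · have h2 := abs_ip_le' (g N) (e N)
        have h3 : Real.sqrt (nsq (g N)) ≤ Real.sqrt C / Real.sqrt N := by
          rw [← Real.sqrt_div hC]
          exact Real.sqrt_le_sqrt (hg2 N hN)
        have h4 : Real.sqrt (nsq (e N)) ≤ Real.sqrt C / N := by
          have : Real.sqrt C / (N : ℝ) = Real.sqrt (C / (N : ℝ) ^ 2) := by
            rw [Real.sqrt_div hC, Real.sqrt_sq hN0.le]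
          rw [this]
          exact Real.sqrt_le_sqrt (he N hN)
        rw [abs_mul, abs_mul, abs_of_pos hN0, abs_of_pos (by norm_num : (0 : ℝ) < 2)]
        calc (N : ℝ) * (2 * |ip (g N) (e N)|) ≤
            (N : ℝ) * (2 * ((Real.sqrt C / Real.sqrt N) * (Real.sqrt C / N))) := by
              gcongr
              exact h2.trans (mul_le_mul h3 h4 (Real.sqrt_nonneg _) (by positivity))
          _ = 2 * (Real.sqrt C * Real.sqrt C) / Real.sqrt N := by
              field_simp
          _ = 2 * C / Real.sqrt N := by rw [Real.mul_self_sqrt hC]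
      · rw [abs_of_nonneg (mul_nonneg hN0.le (nsq_nn _))]
        calc (N : ℝ) * nsq (e N) ≤ (N : ℝ) * (C / (N : ℝ) ^ 2) := by
              gcongr
              exact he N hN
          _ = C / N := by
              field_simp
    have h1 := h0.add hG
    rw [zero_add] at h1
    refine h1.congr fun N => ?_
    ring
  -- the main estimate
  have hmain : ∀ᶠ N : ℕ in atTop,
      ‖(∑ s : ℤˣ, AVd d K (FN N (fun a => u0 d K a + g N a + e N a) s)) / psiN d N ^ K -
        2 ^ K * Real.exp (-((N : ℝ) * n N))‖ ≤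
      2 ^ K * (M * C5 ^ K / Real.sqrt N) +
        2 ^ K * (Real.exp (-(N : ℝ) * (ρ / (2 * d))) / psiN d N ^ K) +
        2 * (1 + 2 ^ K) * (Real.exp (-(N : ℝ) * (δ / 4)) / psiN d N ^ K) := by
    have hs : Tendsto (fun N : ℕ => Real.sqrt (N : ℝ)) atTop atTop :=
      Real.tendsto_sqrt_atTop.comp tendsto_natCast_atTop_atTop
    have ht : Tendsto (fun N : ℕ => 4 * C / (N : ℝ)) atTop (𝓝 0) :=
      tendsto_const_nhds.div_atTop tendsto_natCast_atTop_atTop
    filter_upwards [eventually_ge_atTop 1, hs.eventually_ge_atTop (8 * d * (C1 * Real.sqrt C)),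
      ht.eventually_le_const (show (0 : ℝ) < δ / 4 by positivity)] with N hN hN2 hN3
    have hN0 : (0 : ℝ) < N := by exact_mod_cast hN
    have hN1 : (1 : ℝ) ≤ N := by exact_mod_cast hN
    set x : (Fin K × Fin 2 → Fin d) → ℝ := fun a => u0 d K a + g N a + e N a with hx
    have hxd : nsq (fun a => x a - u0 d K a) ≤ δ / 4 := by
      have h1 := nsq_add_le (fun a => x a - u0 d K a) (g N) (e N) (fun a => by rw [hx]; ring)
      have h2 := hg2 N hN
      have h3 := he N hN
      have h4 : C / (N : ℝ) ^ 2 ≤ C / N := by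
        gcongr
        nlinarith
      have h5 : 4 * C / (N : ℝ) = 4 * (C / N) := by ring
      rw [h5] at hN3
      linarith
    have hψ := (hpos N).1
    have hψK : 0 < psiN d N ^ K := by positivity
    rw [split_sum ρ N x]
    -- local part
    have hloc : |AVd d K (fun O => phi ρ (fun _ => 1) O * FN N x 1 O) -
        Real.exp (-(N : ℝ) * n N) * psiN d N ^ K| ≤
        M / Real.sqrt N * (C5 * psiN d N) ^ K + Real.exp (-(N : ℝ) * (ρ / (2 * d))) := by
      have e1 : psiN d N ^ K = AVd d K (fun O => Real.exp (-((N : ℝ) / d) * ∑ p, nsqm (O p - 1))) := by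
        rw [AVd_exp]
        congr 1
        unfold psiN
        refine integral_congr_ae (Eventually.of_forall fun O => ?_)
        dsimp only
        congr 1
        ring
      have e2 : AVd d K (fun O => Real.exp (-((N : ℝ) / (4 * d)) * ∑ p, nsqm (O p - 1))) ≤
          (C5 * psiN d N) ^ K := by
        rw [AVd_exp]
        have h1 := hC5 N hN
        have h2 : (∫ O : GO d, Real.exp (-((N : ℝ) / (4 * d)) * nsqm ((O : Md d) - 1)) ∂(hO d)) =
            ∫ O : GO d, Real.exp (-(1 / (4 * (d : ℝ))) * (N : ℝ) * nsqm ((O : Md d) - 1)) ∂(hO d) := by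
          refine integral_congr_ae (Eventually.of_forall fun O => ?_)
          dsimp only
          congr 1
          ring
        rw [h2]
        exact pow_le_pow_left₀ (integral_nonneg fun _ => (Real.exp_pos _).le) h1 K
      have cX : Continuous (fun O : Fin K → Md d => ∑ p, nsqm (O p - 1)) :=
        continuous_finsetSum _ fun p _ => continuous_fro.comp
          ((continuous_apply p).sub continuous_const)
      have cE : ∀ a : ℝ, Continuous (fun O : Fin K → Md d =>
          Real.exp (-a * ∑ p, nsqm (O p - 1))) := fun a =>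
        Real.continuous_exp.comp (continuous_const.mul cX)
      rw [e1, ← AVd_mul, ← AVd_sub (fun O => phi ρ (fun _ => 1) O * FN N x 1 O)
        (fun O => Real.exp (-(N : ℝ) * n N) * Real.exp (-((N : ℝ) / d) * ∑ p, nsqm (O p - 1)))
        ((cont_phi ρ _).mul (cont_FN N x 1)) (continuous_const.mul (cE _))]
      have h3 : |AVd d K (fun O => phi ρ (fun _ => 1) O * FN N x 1 O -
          Real.exp (-(N : ℝ) * n N) * Real.exp (-((N : ℝ) / d) * ∑ p, nsqm (O p - 1)))| ≤
          AVd d K (fun O => M / Real.sqrt N *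
            Real.exp (-((N : ℝ) / (4 * d)) * ∑ p, nsqm (O p - 1)) +
            Real.exp (-(N : ℝ) * (ρ / (2 * d)))) := by
        refine AVd_abs_le ((continuous_const.mul (cE _)).add continuous_const) fun O hO => ?_
        exact near_bound hd1 hC1 hC hnear hdist hρ0 hρK hN hN2 (g N) (e N) (hg N) (hg2 N hN)
          (he N hN) O hO
      refine h3.trans ?_
      rw [AVd_add (fun O => M / Real.sqrt N *
            Real.exp (-((N : ℝ) / (4 * d)) * ∑ p, nsqm (O p - 1)))
            (fun _ => Real.exp (-(N : ℝ) * (ρ / (2 * d))))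
            (continuous_const.mul (cE _)) continuous_const, AVd_mul, AVd_const]
      gcongr
    -- far part
    have hfar : |∑ s : ℤˣ, AVd d K (fun O => dfc ρ s O * FN N x s O)| ≤
        2 * ((1 + 2 ^ K) * Real.exp (-(N : ℝ) * (δ / 4))) := by
      refine (Finset.abs_sum_le_sum_abs _ _).trans ?_
      have h1 : ∀ s ∈ (univ : Finset ℤˣ), |AVd d K (fun O => dfc ρ s O * FN N x s O)| ≤
          (1 + 2 ^ K) * Real.exp (-(N : ℝ) * (δ / 4)) := by
        intro s _
        have h2 := AVd_abs_le (d := d) (K := K) (G := fun O => dfc ρ s O * FN N x s O)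
          (H := fun _ => (1 + 2 ^ K) * Real.exp (-(N : ℝ) * (δ / 4))) continuous_const
          (fun O hO => far_bound hd hρ0 hρ1 hcomp N x hxd s O hO)
        rwa [AVd_const] at h2
      refine (Finset.sum_le_sum h1).trans (le_of_eq ?_)
      simp
    set L := AVd d K (fun O => phi ρ (fun _ => 1) O * FN N x 1 O) with hL
    set R := ∑ s : ℤˣ, AVd d K (fun O => dfc ρ s O * FN N x s O) with hR
    set P := psiN d N ^ K with hP
    have e3 : (2 ^ K * L + R) / P - 2 ^ K * Real.exp (-((N : ℝ) * n N)) =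
        2 ^ K * ((L - Real.exp (-(N : ℝ) * n N) * P) / P) + R / P := by
      have : -((N : ℝ) * n N) = -(N : ℝ) * n N := by ring
      rw [this]
      field_simp
      ring
    rw [e3, Real.norm_eq_abs]
    refine (abs_add_le _ _).trans ?_
    rw [abs_mul, abs_div, abs_div, abs_of_pos hψK, abs_of_pos (by positivity : (0 : ℝ) < 2 ^ K)]
    have h4 : |L - Real.exp (-(N : ℝ) * n N) * P| / P ≤
        M * C5 ^ K / Real.sqrt N + Real.exp (-(N : ℝ) * (ρ / (2 * d))) / P := by
      calc |L - Real.exp (-(N : ℝ) * n N) * P| / P ≤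
          (M / Real.sqrt N * (C5 * psiN d N) ^ K + Real.exp (-(N : ℝ) * (ρ / (2 * d)))) / P := by
            gcongr
        _ = _ := by
            rw [mul_pow, ← hP]
            field_simp
    have h5 : |R| / P ≤ 2 * (1 + 2 ^ K) * (Real.exp (-(N : ℝ) * (δ / 4)) / P) := by
      calc |R| / P ≤ (2 * ((1 + 2 ^ K) * Real.exp (-(N : ℝ) * (δ / 4)))) / P := by gcongr
        _ = _ := by ring
    have h6 : (2 : ℝ) ^ K * (|L - Real.exp (-(N : ℝ) * n N) * P| / P) ≤
        2 ^ K * (M * C5 ^ K / Real.sqrt N + Real.exp (-(N : ℝ) * (ρ / (2 * d))) / P) := by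
      gcongr
    rw [mul_add] at h6
    linarith
  have hzero : Tendsto (fun N : ℕ => 2 ^ K * (M * C5 ^ K / Real.sqrt N) +
        2 ^ K * (Real.exp (-(N : ℝ) * (ρ / (2 * d))) / psiN d N ^ K) +
        2 * (1 + 2 ^ K) * (Real.exp (-(N : ℝ) * (δ / 4)) / psiN d N ^ K)) atTop (𝓝 0) := by
    have a1 : Tendsto (fun N : ℕ => M * C5 ^ K / Real.sqrt N) atTop (𝓝 0) :=
      tendsto_const_nhds.div_atTop (Real.tendsto_sqrt_atTop.comp tendsto_natCast_atTop_atTop)
    have a2 := tendsto_small d K hd1 (κ := ρ / (2 * d)) (by positivity)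
    have a3 := tendsto_small d K hd1 (κ := δ / 4) (by positivity)
    have := ((a1.const_mul (2 ^ K)).add (a2.const_mul (2 ^ K))).add (a3.const_mul (2 * (1 + 2 ^ K)))
    simpa using this
  have hdiff := squeeze_zero_norm' hmain hzero
  have hexp : Tendsto (fun N : ℕ => 2 ^ K * Real.exp (-((N : ℝ) * n N))) atTop
      (𝓝 (2 ^ K * Real.exp (-G))) :=
    ((Real.continuous_exp.tendsto _).comp hnlim.neg).const_mul _
  have hsum := hdiff.add hexp
  rw [zero_add] at hsum
  refine hsum.congr fun N => ?_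
  rw [sub_add_cancel]
  rfl

end Pool.Agent.Helper20.T6
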