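import Pool.Agent.Helper15.T6.Stmts

set_option autoImplicit false
set_option linter.unusedSectionVars false

/-!
MP_2f9829_co, T6: ST_PSIB (bound of the integrand for a partial matching), every degree.
-/

open Finset

namespace Pool.Agent.Helper20.T6

open Pool.Agent.Helper15.T4 (IsPM PM cov IsMat nsq po)
open Pool.Agent.Helper15.T6

namespace PB

open Classical in
theorem card_cov {H : Type} [Fintype H] (F : Finset (Sym2 H)) (hF : IsMat F) :
    (cov F).card = 2 * F.card := by
  have h1 : cov F = F.biUnion (fun e => e.toFinset) := by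
    ext h
    simp [cov]
  have hmem : ∀ h, h ∈ cov F ↔ ∃ e ∈ F, h ∈ e := by
    intro h
    simp [cov]
  rw [h1, Finset.card_biUnion, Finset.sum_const_nat (m := 2), mul_comm]
  · intro e he
    exact Sym2.card_toFinset_of_not_isDiag e (hF.1 e he)
  · intro e he e' he' hne
    rw [Function.onFun, Finset.disjoint_left]
    intro h hh hh'
    apply hne
    rw [Sym2.mem_toFinset] at hh hh'
    obtain ⟨e0, _, hu⟩ := hF.2.2 h ((hmem h).2 ⟨e, he, hh⟩)
    rw [hu e ⟨he, hh⟩, hu e' ⟨he', hh'⟩]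

theorem prod_bd {α : Type} (s : Finset α) (f : α → ℝ) (b : ℝ) (h0 : ∀ a ∈ s, 0 ≤ f a)
    (h : ∀ a ∈ s, f a ≤ b) : ∏ a ∈ s, f a ≤ b ^ s.card := by
  rw [← Finset.prod_const]
  exact Finset.prod_le_prod h0 h

variable {d : ℕ} {L : Type} [Fintype L]

theorem w_bd (w : (Fin d → L) → ℝ) : ∃ B : ℝ, 1 ≤ B ∧ ∀ a, |w a| ≤ B := by
  refine ⟨1 + ∑ a, |w a|, ?_, ?_⟩
  · have : 0 ≤ ∑ a, |w a| := by positivity
    linarith
  · intro a
    have := Finset.single_le_sum (f := fun a => |w a|)
      (fun a _ => abs_nonneg _) (Finset.mem_univ a)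
    linarith

theorem x_bd (x : L → ℝ) (i : L) : |x i| ≤ Real.sqrt (nsq x) := by
  apply Real.abs_le_sqrt
  unfold nsq
  exact Finset.single_le_sum (f := fun i => x i ^ 2) (fun i _ => sq_nonneg _) (Finset.mem_univ i)

/-- The factor of an untouched vertex. -/
noncomputable def gg (w : (Fin d → L) → ℝ) (x : L → ℝ) (t : Fin d → L) : ℝ :=
  w t * ∏ i, x (t i)

section Split

variable {n : ℕ} (A : Finset (Fin n))

/-- Combine labelings of the two parts. -/
def comb (p : ({v // v ∈ A} → Fin d → L) × ({v // v ∉ A} → Fin d → L)) : HE n d → L :=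
  fun h => if hv : h.1 ∈ A then p.1 ⟨h.1, hv⟩ h.2 else p.2 ⟨h.1, hv⟩ h.2

/-- The splitting of labelings. -/
def spl : (HE n d → L) ≃ ({v // v ∈ A} → Fin d → L) × ({v // v ∉ A} → Fin d → L) where
  toFun σ := (fun v j => σ (v.1, j), fun v j => σ (v.1, j))
  invFun := comb A
  left_inv σ := by
    funext h
    unfold comb
    by_cases hv : h.1 ∈ A
    · rw [dif_pos hv]
    · rw [dif_neg hv]
  right_inv p := by
    apply Prod.ext
    · funext v j
      show comb A p (v.1, j) = _
      unfold comb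
      rw [dif_pos v.2]
    · funext v j
      show comb A p (v.1, j) = _
      unfold comb
      rw [dif_neg v.2]

theorem comb_in (p : ({v // v ∈ A} → Fin d → L) × ({v // v ∉ A} → Fin d → L)) (h : HE n d)
    (hv : h.1 ∈ A) : comb A p h = p.1 ⟨h.1, hv⟩ h.2 := by
  unfold comb
  rw [dif_pos hv]

theorem comb_out (p : ({v // v ∈ A} → Fin d → L) × ({v // v ∉ A} → Fin d → L))
    (v : {v // v ∉ A}) (j : Fin d) : comb A p (v.1, j) = p.2 v j := by
  unfold comb
  rw [dif_neg v.2]

end Split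

open Classical in
/-- The factor of the touched part. -/
noncomputable def GG {n : ℕ} (w : (Fin d → L) → ℝ) (F : Finset (Sym2 (HE n d))) (x : L → ℝ)
    (σ : HE n d → L) : ℝ :=
  if Eqn F σ then (∏ v ∈ tv F, w (fun i => σ (v, i))) *
    ∏ h ∈ (tv F ×ˢ (univ : Finset (Fin d))) \ cov F, x (σ h) else 0

open Classical in
theorem psi_eq {n : ℕ} (w : (Fin d → L) → ℝ) (F : Finset (Sym2 (HE n d))) (x : L → ℝ) :
    Psi w F x = ∑ σ : HE n d → L, GG w F x σ * ∏ v ∈ (tv F)ᶜ, gg w x (fun j => σ (v, j)) := by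
  unfold Psi
  rw [Finset.sum_filter]
  refine Finset.sum_congr rfl fun σ _ => ?_
  unfold GG gg
  by_cases hE : Eqn F σ
  swap
  · rw [if_neg hE, if_neg hE, zero_mul]
  rw [if_pos hE, if_pos hE]
  have h1 : ∏ v, w (fun i => σ (v, i)) =
      (∏ v ∈ tv F, w (fun i => σ (v, i))) *
        ∏ v ∈ (tv F)ᶜ, w (fun i => σ (v, i)) :=
    (Finset.prod_mul_prod_compl (tv F) _).symm
  have h2 : (cov F)ᶜ = ((tv F ×ˢ (univ : Finset (Fin d))) \ cov F) ∪
      ((tv F)ᶜ ×ˢ (univ : Finset (Fin d))) := by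
    ext h
    simp only [mem_compl, mem_union, mem_sdiff, mem_product, mem_univ, and_true]
    constructor
    · intro hh
      by_cases h3 : h.1 ∈ tv F
      · exact Or.inl ⟨h3, hh⟩
      · exact Or.inr h3
    · rintro (hh | hh)
      · exact hh.2
      · intro h3
        exact hh (Finset.mem_image.2 ⟨h, h3, rfl⟩)
  have h4 : Disjoint ((tv F ×ˢ (univ : Finset (Fin d))) \ cov F)
      ((tv F)ᶜ ×ˢ (univ : Finset (Fin d))) := by
    rw [Finset.disjoint_left]
    intro h hh hh'
    simp only [mem_sdiff, mem_product, mem_univ, and_true, mem_compl] at hh hh'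
    exact hh' hh.1
  have h5 : ∏ h ∈ (cov F)ᶜ, x (σ h) =
      (∏ h ∈ (tv F ×ˢ (univ : Finset (Fin d))) \ cov F, x (σ h)) *
        ∏ v ∈ (tv F)ᶜ, ∏ i, x (σ (v, i)) := by
    rw [h2, Finset.prod_union h4]
    congr 1
    rw [Finset.prod_product]
  rw [h5, h1]
  simp only [Finset.prod_mul_distrib]
  ring

open Classical in
theorem mem_tv_of_mem {n : ℕ} {F : Finset (Sym2 (HE n d))} {e : Sym2 (HE n d)} (he : e ∈ F)
    {a : HE n d} (ha : a ∈ e) : a.1 ∈ tv F := by
  have ha' : a ∈ cov F := by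
    simp only [cov, mem_filter, mem_univ, true_and]
    exact ⟨e, he, ha⟩
  exact Finset.mem_image.2 ⟨a, ha', rfl⟩

open Classical in
theorem eqn_congr {n : ℕ} (F : Finset (Sym2 (HE n d))) (σ τ : HE n d → L)
    (h : ∀ v ∈ tv F, ∀ j, σ (v, j) = τ (v, j)) (hE : Eqn F σ) : Eqn F τ := by
  intro a b hab
  have h1 := mem_tv_of_mem hab (Sym2.mem_mk_left a b)
  have h2 := mem_tv_of_mem hab (Sym2.mem_mk_right a b)
  have h3 := h a.1 h1 a.2
  have h4 := h b.1 h2 b.2
  have h5 := hE a b hab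
  calc τ a = σ a := h3.symm
    _ = σ b := h5
    _ = τ b := h4

open Classical in
theorem gg_indep {n : ℕ} (w : (Fin d → L) → ℝ) (F : Finset (Sym2 (HE n d))) (x : L → ℝ)
    (σ τ : HE n d → L) (h : ∀ v ∈ tv F, ∀ j, σ (v, j) = τ (v, j)) : GG w F x σ = GG w F x τ := by
  unfold GG
  have hiff : Eqn F σ ↔ Eqn F τ :=
    ⟨eqn_congr F σ τ h, eqn_congr F τ σ fun v hv j => (h v hv j).symm⟩
  by_cases hE : Eqn F σ
  swap
  · rw [if_neg hE, if_neg (fun h' => hE (hiff.2 h'))]
  rw [if_pos hE, if_pos (hiff.1 hE)]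
  congr 1
  · refine Finset.prod_congr rfl fun v hv => ?_
    congr 1
    funext i
    exact h v hv i
  · refine Finset.prod_congr rfl fun a ha => ?_
    have : σ a = τ a := by
      simp only [mem_sdiff, mem_product, mem_univ, and_true] at ha
      exact h a.1 ha.1 a.2
    rw [this]

open Classical in
theorem GG_bd {n : ℕ} (w : (Fin d → L) → ℝ) (F : Finset (Sym2 (HE n d))) (hF : IsMat F)
    (x : L → ℝ) (a : ℝ) (ha : 1 ≤ a) (h1 : ∀ t, |w t| ≤ a) (σ : HE n d → L) :
    |GG w F x σ| ≤ a ^ ((tv F).card) *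
      Real.sqrt (nsq x) ^ (d * (tv F).card - 2 * F.card) := by
  have hsub : cov F ⊆ tv F ×ˢ (univ : Finset (Fin d)) := by
    intro h hh
    rw [Finset.mem_product]
    exact ⟨Finset.mem_image.2 ⟨h, hh, rfl⟩, Finset.mem_univ _⟩
  have hcard : ((tv F ×ˢ (univ : Finset (Fin d))) \ cov F).card =
      d * (tv F).card - 2 * F.card := by
    rw [Finset.card_sdiff_of_subset hsub, card_cov F hF, Finset.card_product, Finset.card_univ,
      Fintype.card_fin, mul_comm]
  have ha0 : 0 ≤ a := by linarith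
  unfold GG
  by_cases hE : Eqn F σ
  swap
  · rw [if_neg hE, abs_zero]
    positivity
  rw [if_pos hE, abs_mul, Finset.abs_prod, Finset.abs_prod]
  have e1 : ∏ v ∈ tv F, |w (fun i => σ (v, i))| ≤ a ^ (tv F).card := by
    refine prod_bd _ _ _ (fun _ _ => abs_nonneg _) fun v _ => ?_
    exact h1 _
  have e3 : ∏ h ∈ (tv F ×ˢ (univ : Finset (Fin d))) \ cov F, |x (σ h)| ≤
      (Real.sqrt (nsq x)) ^ (d * (tv F).card - 2 * F.card) := by
    rw [← hcard]
    refine prod_bd _ _ _ (fun _ _ => abs_nonneg _) fun v _ => ?_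
    exact x_bd x _
  exact mul_le_mul e1 e3 (Finset.prod_nonneg fun _ _ => abs_nonneg _) (by positivity)

open Classical in
theorem main {n : ℕ} (w : (Fin d → L) → ℝ) (F : Finset (Sym2 (HE n d))) (x : L → ℝ)
    (K0 : ℝ) (h : ∀ σ : HE n d → L, |GG w F x σ| ≤ K0 ^ ((tv F).card) *
      Real.sqrt (nsq x) ^ (d * (tv F).card - 2 * F.card)) (hK : 0 ≤ K0) :
    |Psi w F x| ≤ |PW w x| ^ (n - (tv F).card) * ((Fintype.card L : ℝ) ^ d * K0) ^ ((tv F).card) *
      Real.sqrt (nsq x) ^ (d * (tv F).card - 2 * F.card) := by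
  rw [psi_eq, ← (spl (L := L) (tv F)).symm.sum_comp, Fintype.sum_prod_type]
  set B : ℝ := K0 ^ ((tv F).card) * Real.sqrt (nsq x) ^ (d * (tv F).card - 2 * F.card) with hB
  have hB0 : 0 ≤ B := by positivity
  have key : ∀ p : {v // v ∈ tv F} → Fin d → L,
      |∑ q : {v // v ∉ tv F} → Fin d → L, GG w F x ((spl (tv F)).symm (p, q)) *
        ∏ v ∈ (tv F)ᶜ, gg w x (fun j => (spl (tv F)).symm (p, q) (v, j))| ≤
      B * |PW w x| ^ (n - (tv F).card) := by
    intro p
    rcases isEmpty_or_nonempty ({v // v ∉ tv F} → Fin d → L) with hE | ⟨⟨q0⟩⟩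
    · rw [Fintype.sum_empty, abs_zero]
      positivity
    · have e1 : ∀ q : {v // v ∉ tv F} → Fin d → L, GG w F x ((spl (tv F)).symm (p, q)) *
          ∏ v ∈ (tv F)ᶜ, gg w x (fun j => (spl (tv F)).symm (p, q) (v, j)) =
          GG w F x ((spl (tv F)).symm (p, q0)) * ∏ v : {v // v ∉ tv F}, gg w x (q v) := by
        intro q
        congr 1
        · apply gg_indep
          intro v hv j
          show comb (tv F) (p, q) (v, j) = comb (tv F) (p, q0) (v, j)
          rw [comb_in (tv F) (p, q) (v, j) hv, comb_in (tv F) (p, q0) (v, j) hv]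
        · rw [Finset.prod_subtype (tv F)ᶜ (p := fun v => v ∉ tv F) (fun v => by simp)]
          refine Finset.prod_congr rfl fun v _ => ?_
          congr 1
          funext j
          exact comb_out (tv F) (p, q) v j
      rw [Finset.sum_congr rfl fun q _ => e1 q, ← Finset.mul_sum, abs_mul]
      have e2 : ∑ q : {v // v ∉ tv F} → Fin d → L, ∏ v : {v // v ∉ tv F}, gg w x (q v) =
          PW w x ^ (n - (tv F).card) := by
        have hP : PW w x = ∑ t : Fin d → L, gg w x t := rfl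
        rw [hP]
        have e3 := (Finset.prod_univ_sum (fun _ : {v // v ∉ tv F} => (univ : Finset (Fin d → L)))
          (fun _ t => gg w x t)).symm
        rw [Fintype.piFinset_univ] at e3
        rw [e3, Finset.prod_const, Finset.card_univ]
        congr 1
        rw [Fintype.card_subtype_compl, Fintype.card_fin, Fintype.card_coe]
      rw [e2, abs_pow]
      exact mul_le_mul_of_nonneg_right (h _) (pow_nonneg (abs_nonneg _) _)
  calc _ ≤ ∑ p : {v // v ∈ tv F} → Fin d → L, B * |PW w x| ^ (n - (tv F).card) :=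
        (Finset.abs_sum_le_sum_abs _ _).trans (Finset.sum_le_sum fun p _ => key p)
    _ = ((Fintype.card L : ℝ) ^ d) ^ ((tv F).card) * (B * |PW w x| ^ (n - (tv F).card)) := by
        rw [Finset.sum_const, Finset.card_univ, nsmul_eq_mul]
        congr 1
        rw [Fintype.card_fun, Fintype.card_fun, Fintype.card_fin, Fintype.card_coe]
        push_cast
        ring
    _ = _ := by rw [hB, mul_pow]; ring

end PB

theorem st_PSIB : ST_PSIB := by
  intro d L _ w
  obtain ⟨a, ha, h1⟩ := PB.w_bd w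
  have ha0 : 0 ≤ a := by linarith
  have hL : (0 : ℝ) ≤ Fintype.card L := Nat.cast_nonneg _
  have hKK : (0 : ℝ) ≤ (Fintype.card L : ℝ) ^ d * a := by positivity
  refine ⟨1 + (Fintype.card L : ℝ) ^ d * a, by linarith, ?_⟩
  intro n F x hF
  refine (PB.main w F x a (PB.GG_bd w F hF x a ha h1) ha0).trans ?_
  apply mul_le_mul_of_nonneg_right _ (pow_nonneg (Real.sqrt_nonneg _) _)
  apply mul_le_mul_of_nonneg_left _ (pow_nonneg (abs_nonneg _) _)
  exact pow_le_pow_left₀ hKK (by linarith) _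

end Pool.Agent.Helper20.T6
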